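import Pool.Agent.P8H96.CF.Chr

/-!
# The multiplicative function `g` (package EUL)
-/

set_option autoImplicit false

namespace Pool.Agent.P8H96.CF

open Finset Filter Topology Pool.Agent.P8H14.CF

/-- `g(p^j) = -1/(p^j (p-1))` -/
noncomputable def gg (a : ℕ) : ℝ := (∏ p ∈ a.primeFactors, (-1 / ((p : ℝ) - 1))) / a

theorem gg_zero : gg 0 = 0 := by simp [gg]

theorem gg_one : gg 1 = 1 := by simp [gg]

theorem gg_mul {m n : ℕ} (h : m.Coprime n) : gg (m * n) = gg m * gg n := by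
  unfold gg
  rw [h.primeFactors_mul, prod_union h.disjoint_primeFactors, Nat.cast_mul, div_mul_div_comm]

theorem gg_pow {p : ℕ} (hp : p.Prime) (e : ℕ) :
    gg (p ^ (e + 1)) = (-1 / ((p : ℝ) - 1)) * (1 / (p : ℝ)) ^ (e + 1) := by
  unfold gg
  rw [Nat.primeFactors_prime_pow (by omega) hp, prod_singleton, Nat.cast_pow]
  rw [one_div_pow]
  ring

theorem hasSum_geo {f : ℕ → ℝ} {c r : ℝ} (h0 : f 0 = 1) (h1 : ∀ e, f (e + 1) = c * r ^ (e + 1))
    (hr : |r| < 1) : HasSum f (1 + c * (r / (1 - r))) := by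
  have h3 := (hasSum_geometric_of_abs_lt_one hr).mul_left (c * r)
  have h4 : c * r * (1 - r)⁻¹ = c * (r / (1 - r)) := by rw [mul_assoc, div_eq_mul_inv]
  rw [h4] at h3
  have h5 : HasSum (fun e => f (e + 1)) (c * (r / (1 - r))) := by
    have e1 : (fun e => f (e + 1)) = fun e => c * r * r ^ e := by
      funext e
      rw [h1]
      ring
    rw [e1]
    exact h3
  have h6 := (hasSum_nat_add_iff 1).1 h5
  rw [range_one, sum_singleton, h0] at h6
  rwa [add_comm] at h6

/-! ### Summability -/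

/-- `|g(a)| √a` -/
noncomputable def hh (a : ℕ) : ℝ := |gg a| * √(a : ℝ)

theorem hh_nonneg (a : ℕ) : 0 ≤ hh a := mul_nonneg (abs_nonneg _) (Real.sqrt_nonneg _)

theorem hh_zero : hh 0 = 0 := by simp [hh]

theorem hh_one : hh 1 = 1 := by simp [hh, gg_one]

theorem hh_mul {m n : ℕ} (h : m.Coprime n) : hh (m * n) = hh m * hh n := by
  unfold hh
  rw [gg_mul h, abs_mul, Nat.cast_mul, Real.sqrt_mul (Nat.cast_nonneg _)]
  ring

theorem hh_pow {p : ℕ} (hp : p.Prime) (e : ℕ) :
    hh (p ^ (e + 1)) = (1 / ((p : ℝ) - 1)) * (1 / √(p : ℝ)) ^ (e + 1) := by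
  have hp2 : (2 : ℝ) ≤ p := by exact_mod_cast hp.two_le
  have hs : 0 < √(p : ℝ) := Real.sqrt_pos.2 (by linarith)
  have hsq : √(p : ℝ) * √(p : ℝ) = p := Real.mul_self_sqrt (by linarith)
  unfold hh
  rw [gg_pow hp, abs_mul, neg_div, abs_neg, abs_of_pos (by
    apply div_pos one_pos; linarith : 0 < 1 / ((p : ℝ) - 1)), abs_of_pos (by positivity),
    Nat.cast_pow, mul_assoc]
  congr 1
  have e1 : √((p : ℝ) ^ (e + 1)) = √(p : ℝ) ^ (e + 1) := by
    rw [Real.sqrt_eq_iff_mul_self_eq_of_pos (by positivity), ← mul_pow, hsq]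
  rw [e1, ← mul_pow]
  congr 1
  rw [div_mul_eq_mul_div, one_mul, div_eq_div_iff (by linarith) hs.ne', hsq, one_mul]

theorem hh_hasSum {p : ℕ} (hp : p.Prime) :
    HasSum (fun e => hh (p ^ e)) (1 + (1 / ((p : ℝ) - 1)) * ((1 / √(p : ℝ)) / (1 - 1 / √(p : ℝ)))) := by
  have hp2 : (2 : ℝ) ≤ p := by exact_mod_cast hp.two_le
  have hs : 1 < √(p : ℝ) := by
    rw [Real.lt_sqrt zero_le_one]
    linarith
  apply hasSum_geo
  · rw [pow_zero, hh_one]
  · exact hh_pow hp
  · rw [abs_of_pos (by positivity), div_lt_one (by linarith)]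
    exact hs

theorem hh_local {p : ℕ} (hp : p.Prime) :
    1 + (1 / ((p : ℝ) - 1)) * ((1 / √(p : ℝ)) / (1 - 1 / √(p : ℝ))) ≤
      Real.exp (8 * (p : ℝ) ^ (-(3 / 2) : ℝ)) := by
  have hp2 : (2 : ℝ) ≤ p := by exact_mod_cast hp.two_le
  have hp0 : (0 : ℝ) < p := by linarith
  have hs : 4 / 3 ≤ √(p : ℝ) := by
    apply Real.le_sqrt_of_sq_le
    linarith
  have hsq : √(p : ℝ) * √(p : ℝ) = p := Real.mul_self_sqrt (by linarith)
  have e1 : (1 / √(p : ℝ)) / (1 - 1 / √(p : ℝ)) = 1 / (√(p : ℝ) - 1) := by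
    have h1 : √(p : ℝ) ≠ 0 := by linarith
    have h2 : √(p : ℝ) - 1 ≠ 0 := by
      have : 0 < √(p : ℝ) - 1 := by linarith
      exact this.ne'
    have h3 : (1 - 1 / √(p : ℝ)) = (√(p : ℝ) - 1) / √(p : ℝ) := by
      field_simp
    rw [h3]
    field_simp
  rw [e1]
  have e2 : (p : ℝ) ^ (-(3 / 2) : ℝ) = 1 / (p * √(p : ℝ)) := by
    rw [Real.rpow_neg hp0.le, one_div]
    congr 1
    have : (3 / 2 : ℝ) = 1 + 1 / 2 := by norm_num
    rw [this, Real.rpow_add hp0, Real.rpow_one, Real.sqrt_eq_rpow]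
  rw [e2]
  have h3 : 1 / ((p : ℝ) - 1) * (1 / (√(p : ℝ) - 1)) ≤ 8 * (1 / (p * √(p : ℝ))) := by
    rw [div_mul_div_comm, one_mul, mul_one_div, div_le_div_iff₀ (by
      apply mul_pos <;> linarith) (by positivity), one_mul]
    have h4 : (p : ℝ) ≤ 2 * (p - 1) := by linarith
    have h5 : √(p : ℝ) ≤ 4 * (√(p : ℝ) - 1) := by linarith
    have h6 : (0 : ℝ) ≤ √(p : ℝ) := by linarith
    calc (p : ℝ) * √(p : ℝ) ≤ (2 * (p - 1)) * (4 * (√(p : ℝ) - 1)) := by
          apply mul_le_mul h4 h5 h6 (by linarith)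
      _ = 8 * ((p - 1) * (√(p : ℝ) - 1)) := by ring
  have h7 := Real.add_one_le_exp (8 * (1 / (p * √(p : ℝ))))
  linarith

theorem hh_summable : Summable hh := by
  have hz : Summable (fun n : ℕ => 8 * (n : ℝ) ^ (-(3 / 2) : ℝ)) :=
    (Real.summable_nat_rpow.2 (by norm_num)).mul_left 8
  refine summable_of_sum_range_le (c := Real.exp (∑' n : ℕ, 8 * (n : ℝ) ^ (-(3 / 2) : ℝ)))
    hh_nonneg (fun N => ?_)
  have h1 := EulerProduct.summable_and_hasSum_smoothNumbers_prod_primesBelow_tsum (f := hh) hh_one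
    (fun {m n} h => hh_mul h) (fun {p} hp => (hh_hasSum hp).summable.norm) N
  have h2 : ∑ a ∈ range N, hh a = ∑ a ∈ (range N).filter (fun a => a ≠ 0), hh a := by
    rw [sum_filter]
    refine sum_congr rfl fun a _ => ?_
    split_ifs with h
    · rfl
    · rw [not_not] at h
      rw [h, hh_zero]
  classical
  have h3 : ∑ a ∈ (range N).filter (fun a => a ≠ 0), hh a =
      ∑ x ∈ ((range N).filter (fun a => a ≠ 0)).subtype (fun a => a ∈ Nat.smoothNumbers N), hh x := by
    rw [sum_subtype_of_mem]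
    intro a ha
    rw [mem_filter, mem_range] at ha
    exact Nat.mem_smoothNumbers_of_lt (Nat.pos_of_ne_zero ha.2) ha.1
  rw [h2, h3]
  refine (sum_le_hasSum _ (fun x _ => hh_nonneg _) h1.2).trans ?_
  have h4 : ∏ p ∈ Nat.primesBelow N, ∑' n : ℕ, hh (p ^ n) ≤
      ∏ p ∈ Nat.primesBelow N, Real.exp (8 * (p : ℝ) ^ (-(3 / 2) : ℝ)) := by
    refine prod_le_prod (fun p _ => tsum_nonneg fun n => hh_nonneg _) fun p hp => ?_
    rw [Nat.mem_primesBelow] at hp
    rw [(hh_hasSum hp.2).tsum_eq]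
    exact hh_local hp.2
  refine h4.trans ?_
  rw [← Real.exp_sum]
  apply Real.exp_le_exp.2
  exact hz.sum_le_tsum _ (fun n _ => by positivity)

/-! ### The Euler product -/

theorem gx_summable (A : ℕ) : Summable (fun a => ‖gg a * (chi A a : ℝ)‖) := by
  refine Summable.of_nonneg_of_le (fun _ => norm_nonneg _) (fun a => ?_) hh_summable
  rw [norm_mul, Real.norm_eq_abs, Real.norm_eq_abs]
  unfold hh
  rcases Nat.eq_zero_or_pos a with rfl | ha
  · rw [gg_zero]; simp
  have h1 : 1 ≤ √(a : ℝ) := by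
    rw [Real.one_le_sqrt]
    exact_mod_cast ha
  exact mul_le_mul_of_nonneg_left ((chi_abs A a).trans h1) (abs_nonneg _)

theorem gx_hasSum (A : ℕ) {p : ℕ} (hp : p.Prime) :
    HasSum (fun e => gg (p ^ e) * (chi A (p ^ e) : ℝ))
      ((1 - (chi A p : ℝ) / (p - 1)) / (1 - (chi A p : ℝ) / p)) := by
  have hp2 : (2 : ℝ) ≤ p := by exact_mod_cast hp.two_le
  have hx := chi_abs A p
  have hx2 : |(chi A p : ℝ) / p| ≤ 1 / 2 := by
    rw [abs_div, abs_of_pos (by linarith : (0 : ℝ) < p), div_le_div_iff₀ (by linarith) (by norm_num)]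
    linarith
  have h1 := hasSum_geo (f := fun e => gg (p ^ e) * (chi A (p ^ e) : ℝ))
    (c := -1 / ((p : ℝ) - 1)) (r := (chi A p : ℝ) / p) (by
      simp only [pow_zero]
      rw [gg_one, chi_one]
      norm_num) (fun e => by
      rw [gg_pow hp, chi_pow]
      push_cast
      rw [one_div_pow, div_pow]
      ring) (by linarith)
  have h2 : (1 : ℝ) + -1 / ((p : ℝ) - 1) * ((chi A p : ℝ) / p / (1 - (chi A p : ℝ) / p)) =
      (1 - (chi A p : ℝ) / (p - 1)) / (1 - (chi A p : ℝ) / p) := by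
    have h3 : (1 - (chi A p : ℝ) / p) ≠ 0 := by
      have := (abs_le.1 hx2).2
      have h4 : 0 < 1 - (chi A p : ℝ) / p := by linarith
      exact h4.ne'
    have h4 : (p : ℝ) - 1 ≠ 0 := by
      have : (0 : ℝ) < p - 1 := by linarith
      exact this.ne'
    have h5 : (p : ℝ) ≠ 0 := by linarith
    rw [eq_div_iff h3, add_mul, mul_assoc, div_mul_cancel₀ _ h3]
    field_simp
    ring
  rw [h2] at h1
  exact h1

theorem gx_euler (A : ℕ) : Tendsto (fun N => ∏ p ∈ Nat.primesBelow N,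
    ((1 - (chi A p : ℝ) / (p - 1)) / (1 - (chi A p : ℝ) / p))) atTop
    (𝓝 (∑' a : ℕ, gg a * (chi A a : ℝ))) := by
  have h1 := EulerProduct.eulerProduct (f := fun a => gg a * (chi A a : ℝ))
    (by rw [gg_one, chi_one]; norm_num) (fun {m n} hmn => by
      rw [gg_mul hmn, chi_mul]
      push_cast
      ring) (gx_summable A) (by rw [gg_zero, zero_mul])
  refine h1.congr fun N => ?_
  refine prod_congr rfl fun p hp => ?_
  rw [Nat.mem_primesBelow] at hp
  exact (gx_hasSum A hp.2).tsum_eq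

/-- lower bound for the partial products -/
theorem prod_ge {A : ℕ} (ho : Odd A) (N : ℕ) (hN : 2 ≤ N) :
    (N : ℝ) / (2 * (N - 1)) ≤ ∏ p ∈ Nat.primesBelow (N + 1),
      ((1 - (chi A p : ℝ) / (p - 1)) / (1 - (chi A p : ℝ) / p)) := by
  induction N, hN using Nat.le_induction with
  | base =>
    have h1 : Nat.primesBelow (2 + 1) = {2} := by decide
    rw [h1, prod_singleton, chi_two ho]
    norm_num
  | succ N hN ih =>
    have hN2 : (2 : ℝ) ≤ N := by exact_mod_cast hN
    by_cases hp : (N + 1).Prime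
    · have h1 : Nat.primesBelow (N + 1 + 1) = insert (N + 1) (Nat.primesBelow (N + 1)) := by
        rw [Nat.primesBelow_succ, if_pos hp]
      rw [h1, prod_insert (by rw [Nat.mem_primesBelow]; omega)]
      have h2 : 1 - 1 / (N : ℝ) ^ 2 ≤ (1 - (chi A (N + 1) : ℝ) / (((N + 1 : ℕ) : ℝ) - 1)) /
          (1 - (chi A (N + 1) : ℝ) / ((N + 1 : ℕ) : ℝ)) := by
        push_cast
        rw [add_sub_cancel_right]
        rcases chi_tri A (N + 1) with h3 | h3 | h3 <;> rw [h3]
        · simp only [Int.cast_zero, zero_div, sub_zero, div_one]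
          have : 0 ≤ 1 / (N : ℝ) ^ 2 := by positivity
          linarith
        · have h4 : (1 - ((1 : ℤ) : ℝ) / (N : ℝ)) / (1 - ((1 : ℤ) : ℝ) / ((N : ℝ) + 1)) =
              1 - 1 / (N : ℝ) ^ 2 := by
            have h5 : (N : ℝ) ≠ 0 := by linarith
            have h6 : (N : ℝ) + 1 ≠ 0 := by linarith
            have h7 : (1 - ((1 : ℤ) : ℝ) / ((N : ℝ) + 1)) = N / (N + 1) := by
              rw [Int.cast_one, eq_div_iff h6, sub_mul, div_mul_cancel₀ _ h6]
              ring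
            rw [h7, Int.cast_one]
            field_simp
            ring
          rw [h4]
        · have h8 : 1 ≤ (1 - ((-1 : ℤ) : ℝ) / (N : ℝ)) / (1 - ((-1 : ℤ) : ℝ) / ((N : ℝ) + 1)) := by
            rw [Int.cast_neg, Int.cast_one, neg_div, neg_div, sub_neg_eq_add, sub_neg_eq_add,
              one_le_div (by positivity)]
            have : 1 / ((N : ℝ) + 1) ≤ 1 / (N : ℝ) :=
              one_div_le_one_div_of_le (by linarith) (by linarith)
            linarith
          have : 0 ≤ 1 / (N : ℝ) ^ 2 := by positivity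
          linarith
      have h3 : 0 ≤ 1 - 1 / (N : ℝ) ^ 2 := by
        have : 1 / (N : ℝ) ^ 2 ≤ 1 := by
          rw [div_le_one (by positivity)]
          nlinarith
        linarith
      have h4 : 0 ≤ (N : ℝ) / (2 * (N - 1)) := by
        apply div_nonneg <;> linarith
      have h5 := mul_le_mul h2 ih h4 (h3.trans h2)
      refine le_trans (le_of_eq ?_) h5
      have h6 : (N : ℝ) ≠ 0 := by linarith
      have h7 : (N : ℝ) - 1 ≠ 0 := by
        have : (0 : ℝ) < N - 1 := by linarith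
        exact this.ne'
      push_cast
      rw [add_sub_cancel_right]
      field_simp
      ring
    · have h1 : Nat.primesBelow (N + 1 + 1) = Nat.primesBelow (N + 1) := by
        rw [Nat.primesBelow_succ, if_neg hp]
      rw [h1]
      refine le_trans ?_ ih
      push_cast
      rw [add_sub_cancel_right, div_le_div_iff₀ (by linarith) (by linarith)]
      nlinarith

end Pool.Agent.P8H96.CF
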