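import Pool.Agent.P8H96.CF.Eul1
import Pool.Agent.P8H96.CF.Gg
import Pool.Agent.P8H14.CF.Stm

/-!
# Package EUL
-/

set_option autoImplicit false

namespace Pool.Agent.P8H96.CF

open Finset Filter Topology Pool.Agent.P8H14.CF

/-! ### the convolution -/

/-- `g` as an arithmetic function -/
noncomputable def gA : ArithmeticFunction ℝ := ⟨gg, gg_zero⟩

/-- `μ(n)/n` -/
noncomputable def mA : ArithmeticFunction ℝ :=
  ⟨fun n => ((ArithmeticFunction.moebius n : ℤ) : ℝ) / n, by simp⟩

/-- `μ(n)/φ(n)` -/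
noncomputable def pA : ArithmeticFunction ℝ :=
  ⟨fun n => ((ArithmeticFunction.moebius n : ℤ) : ℝ) / (n.totient : ℝ), by simp⟩

theorem gA_apply (n : ℕ) : gA n = gg n := rfl
theorem mA_apply (n : ℕ) : mA n = ((ArithmeticFunction.moebius n : ℤ) : ℝ) / n := rfl
theorem pA_apply (n : ℕ) : pA n = ((ArithmeticFunction.moebius n : ℤ) : ℝ) / (n.totient : ℝ) := rfl

theorem gA_mult : gA.IsMultiplicative := by
  refine ⟨?_, fun {m n} h => ?_⟩
  · rw [gA_apply, gg_one]
  · rw [gA_apply, gA_apply, gA_apply, gg_mul h]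

theorem mA_mult : mA.IsMultiplicative := by
  refine ⟨?_, fun {m n} h => ?_⟩
  · rw [mA_apply, ArithmeticFunction.moebius_apply_one]; norm_num
  · rw [mA_apply, mA_apply, mA_apply, ArithmeticFunction.isMultiplicative_moebius.map_mul_of_coprime h]
    push_cast
    rw [div_mul_div_comm]

theorem pA_mult : pA.IsMultiplicative := by
  refine ⟨?_, fun {m n} h => ?_⟩
  · rw [pA_apply, ArithmeticFunction.moebius_apply_one, Nat.totient_one]; norm_num
  · rw [pA_apply, pA_apply, pA_apply, ArithmeticFunction.isMultiplicative_moebius.map_mul_of_coprime h,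
      Nat.totient_mul h]
    push_cast
    rw [div_mul_div_comm]

theorem conv : gA * mA = pA := by
  rw [ArithmeticFunction.IsMultiplicative.eq_iff_eq_on_prime_powers _ (gA_mult.mul mA_mult) _ pA_mult]
  intro p i hp
  have hp2 : (2 : ℝ) ≤ p := by exact_mod_cast hp.two_le
  have hp0 : (p : ℝ) ≠ 0 := by linarith
  have hp1 : (p : ℝ) - 1 ≠ 0 := by
    have : (0 : ℝ) < p - 1 := by linarith
    exact this.ne'
  rcases i with _ | i
  · rw [pow_zero, (gA_mult.mul mA_mult).map_one, pA_mult.map_one]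
  rw [ArithmeticFunction.mul_apply, Nat.sum_divisorsAntidiagonal' (f := fun a b => gA a * mA b),
    Nat.sum_divisors_prime_pow hp]
  have h1 : ∀ j ∈ range (i + 1 + 1), gA (p ^ (i + 1) / p ^ j) * mA (p ^ j) =
      if j = 0 then gg (p ^ (i + 1)) else if j = 1 then - gg (p ^ i) / p else 0 := by
    intro j hj
    rw [mem_range] at hj
    have e1 : p ^ (i + 1) / p ^ j = p ^ (i + 1 - j) := Nat.pow_div (by omega) hp.pos
    rw [e1]
    split_ifs with h0 h1
    · rw [h0, pow_zero, mA_mult.map_one, mul_one, Nat.sub_zero]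
      rfl
    · rw [h1, pow_one, mA_apply, ArithmeticFunction.moebius_apply_prime hp, Nat.add_sub_cancel]
      rw [gA_apply]
      push_cast
      ring
    · have hm : ArithmeticFunction.moebius (p ^ j) = 0 := by
        rw [ArithmeticFunction.moebius_apply_prime_pow hp h0, if_neg h1]
      rw [mA_apply, hm]
      simp
  rw [sum_congr rfl h1, sum_range_succ', sum_range_succ']
  have h2 : ∑ k ∈ range i, (if k + 1 + 1 = 0 then gg (p ^ (i + 1)) else
      if k + 1 + 1 = 1 then - gg (p ^ i) / p else 0) = 0 := by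
    refine sum_eq_zero fun k _ => ?_
    rw [if_neg (by omega), if_neg (by omega)]
  rw [h2]
  simp only [zero_add, one_ne_zero, if_false, if_true]
  rcases i with _ | i
  · rw [pow_zero, gg_one, pA_apply]
    rw [pow_one, ArithmeticFunction.moebius_apply_prime hp, Nat.totient_prime hp]
    have h3 := gg_pow hp 0
    rw [zero_add, pow_one, pow_one] at h3
    rw [h3, Nat.cast_sub hp.one_le]
    push_cast
    field_simp
    ring
  · have hm : ArithmeticFunction.moebius (p ^ (i + 1 + 1)) = 0 := by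
      rw [ArithmeticFunction.moebius_apply_prime_pow hp (by omega), if_neg (by omega)]
    rw [pA_apply, hm, gg_pow hp, gg_pow hp]
    rw [one_div_pow, one_div_pow]
    push_cast
    field_simp
    ring

/-- `g χ` -/
noncomputable def gxA (A : ℕ) : ArithmeticFunction ℝ :=
  ⟨fun a => gg a * (chi A a : ℝ), by rw [gg_zero, zero_mul]⟩

/-- `μ χ / id` -/
noncomputable def mxA (A : ℕ) : ArithmeticFunction ℝ :=
  ⟨fun b => ((ArithmeticFunction.moebius b : ℤ) : ℝ) * chi A b / b, by simp⟩

theorem gxA_apply (A n : ℕ) : gxA A n = gg n * (chi A n : ℝ) := rfl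
theorem mxA_apply (A n : ℕ) : mxA A n = ((ArithmeticFunction.moebius n : ℤ) : ℝ) * chi A n / n := rfl

/-- the same with a completely multiplicative twist, summed -/
theorem conv_sum (A Q : ℕ) : ∑ k ∈ Icc 1 Q, ((ArithmeticFunction.moebius k : ℤ) : ℝ) /
    (k.totient : ℝ) * chi A k = ∑ a ∈ Icc 1 Q, gg a * chi A a *
      ∑ b ∈ Icc 1 (Q / a), ((ArithmeticFunction.moebius b : ℤ) : ℝ) * chi A b / b := by
  have hI : ∀ N : ℕ, Icc 1 N = Ioc 0 N := fun N => rfl
  have h1 := ArithmeticFunction.sum_Ioc_mul_eq_sum_sum (gxA A) (mxA A) Q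
  simp only [gxA_apply A, mxA_apply A] at h1
  simp only [hI]
  refine Eq.trans (sum_congr rfl fun k _ => ?_) h1
  rw [ArithmeticFunction.mul_apply]
  have h2 : pA k = (gA * mA) k := by rw [conv]
  rw [← pA_apply, h2, ArithmeticFunction.mul_apply, sum_mul]
  refine sum_congr rfl fun x hx => ?_
  have h3 : (chi A k : ℝ) = chi A x.1 * chi A x.2 := by
    rw [← (Nat.mem_divisorsAntidiagonal.1 hx).1, chi_mul]
    push_cast
    ring
  rw [h3, gA_apply, mA_apply, gxA_apply, mxA_apply]
  ring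

theorem sing_eq {A : ℕ} (h : 3 ≤ A) (ho : Odd A) (Q : ℕ) : sing Q A =
    ∑ k ∈ Icc 1 Q, ((ArithmeticFunction.moebius k : ℤ) : ℝ) / (k.totient : ℝ) * chi A k := by
  unfold sing
  refine sum_congr rfl fun k _ => ?_
  by_cases hs : Squarefree k
  · congr 1
    have h1 : ∏ p ∈ k.primeFactors, ((rho A p : ℝ) - 1) = ∏ p ∈ k.primeFactors, (chi A p : ℝ) := by
      refine prod_congr rfl fun p hp => ?_
      exact rho_eq h ho (Nat.prime_of_mem_primeFactors hp)
    rw [h1]
    have h2 : ∀ s : Finset ℕ, ∏ p ∈ s, (chi A p : ℝ) = (chi A (∏ p ∈ s, p) : ℝ) := by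
      intro s
      classical
      induction s using Finset.induction_on with
      | empty => rw [prod_empty, prod_empty, chi_one, Int.cast_one]
      | insert a s ha ih =>
        rw [prod_insert ha, prod_insert ha, chi_mul, ih]
        push_cast
        ring
    rw [h2, Nat.prod_primeFactors_of_squarefree hs]
  · rw [ArithmeticFunction.moebius_eq_zero_of_not_squarefree hs]
    simp

/-- **EUL.** -/
theorem eul : S_EUL := by
  refine ⟨gg, 1 / 2, by norm_num, hh_summable, fun A h ho => ?_⟩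
  obtain ⟨L, hL, hT, hP⟩ := exists_L h ho
  have hE := gx_euler A
  have hprod : Tendsto (fun N => ∏ p ∈ Nat.primesBelow N, (1 - (chi A p : ℝ) / (p - 1))) atTop
      (𝓝 ((∑' a : ℕ, gg a * (chi A a : ℝ)) * L⁻¹)) := by
    refine (hE.mul hP).congr fun N => ?_
    rw [← prod_mul_distrib]
    refine prod_congr rfl fun p hp => ?_
    rw [Nat.mem_primesBelow] at hp
    have hx := x_pos A hp.2.two_le (le_refl (0 : ℝ))
    rw [add_zero, Real.rpow_neg_one, ← div_eq_mul_inv] at hx
    rw [div_mul_cancel₀ _ hx.ne']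
  have hη : 1 / 2 ≤ ∑' a : ℕ, gg a * (chi A a : ℝ) := by
    refine ge_of_tendsto ((tendsto_add_atTop_iff_nat 1).2 hE) ?_
    filter_upwards [eventually_ge_atTop 2] with N hN
    refine le_trans ?_ (prod_ge ho N hN)
    have hN2 : (2 : ℝ) ≤ N := by exact_mod_cast hN
    rw [div_le_div_iff₀ (by norm_num) (by linarith)]
    linarith
  refine ⟨L, (∑' a : ℕ, gg a * (chi A a : ℝ)) * L⁻¹ / 2, hL, fun x hx => ?_, ?_, ?_, ?_, fun Q => ?_⟩
  · have h1 := hT x
    have h2 : T1 A x 0 = ∑ n ∈ Icc 1 x, (chi A n : ℝ) / n := by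
      unfold T1
      refine sum_congr rfl fun n _ => ?_
      rw [add_zero, Real.rpow_neg_one, ← div_eq_mul_inv]
    rw [h2] at h1
    refine h1.trans ?_
    have hx0 : (0 : ℝ) < x := by exact_mod_cast hx
    have hA : (0 : ℝ) ≤ A := Nat.cast_nonneg A
    rw [div_le_div_iff₀ (by linarith) hx0]
    nlinarith
  · unfold IsC
    have h1 := (tendsto_add_atTop_iff_nat 1).2 hprod
    have h2 : Tendsto (fun N => (∏ p ∈ Nat.primesBelow (N + 1), (1 - (chi A p : ℝ) / (p - 1))) / 2)
        atTop (𝓝 ((∑' a : ℕ, gg a * (chi A a : ℝ)) * L⁻¹ / 2)) := h1.div_const 2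
    refine h2.congr' ?_
    filter_upwards [eventually_ge_atTop 2] with N hN
    have h3 : Nat.primesBelow (N + 1) = insert 2 ((Icc 3 N).filter Nat.Prime) := by
      ext p
      rw [Nat.mem_primesBelow, mem_insert, mem_filter, mem_Icc]
      constructor
      · rintro ⟨h4, h5⟩
        have := h5.two_le
        by_cases h6 : p = 2
        · exact Or.inl h6
        · exact Or.inr ⟨⟨by omega, by omega⟩, h5⟩
      · rintro (rfl | ⟨⟨h4, h5⟩, h6⟩)
        · exact ⟨by omega, Nat.prime_two⟩
        · exact ⟨by omega, h6⟩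
    rw [h3, prod_insert (by rw [mem_filter, mem_Icc]; omega), chi_two ho]
    have h4 : ∏ p ∈ (Icc 3 N).filter Nat.Prime, (1 - (chi A p : ℝ) / (p - 1)) =
        ∏ p ∈ (Icc 3 N).filter Nat.Prime, (1 - (jacobiSym (1 - 4 * (A : ℤ)) p : ℝ) / ((p : ℝ) - 1)) := by
      refine prod_congr rfl fun p hp => ?_
      rw [mem_filter, mem_Icc] at hp
      rw [chi_jac h (hp.2.odd_of_ne_two (by omega))]
    rw [h4]
    push_cast
    ring
  · field_simp
  · have h1 : 2 * ((∑' a : ℕ, gg a * (chi A a : ℝ)) * L⁻¹ / 2) * L = ∑' a : ℕ, gg a * (chi A a : ℝ) := by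
      field_simp
    rw [h1]
    exact hη
  · rw [sing_eq h ho, conv_sum]

end Pool.Agent.P8H96.CF
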