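import Pool.Agent.P8H14.CF.Stm

/-!
# Package SS
-/

set_option autoImplicit false

namespace Pool.Agent.P8H96.CF.SS

open Finset Filter Topology Pool.Agent.P8H14.CF

theorem harm_le (Y : ℕ) : ∑ b ∈ Icc 1 Y, 1 / (b : ℝ) ≤ 1 + Real.log Y := by
  have h := harmonic_le_one_add_log Y
  rw [harmonic_eq_sum_Icc] at h
  push_cast at h
  simpa only [one_div] using h

theorem chi_abs (A n : ℕ) : |(chi A n : ℝ)| ≤ 1 := by
  unfold chi
  rcases jacobiSym.trichotomy (n : ℤ) (4 * A - 1) with h | h | h <;> rw [h] <;> norm_num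

theorem mu_abs (n : ℕ) : |((ArithmeticFunction.moebius n : ℤ) : ℝ)| ≤ 1 := by
  have h := ArithmeticFunction.abs_moebius_le_one (n := n)
  exact_mod_cast h

/-- the sums `∑ μ(b)χ(b)/b` -/
noncomputable def SY (A Y : ℕ) : ℝ :=
  ∑ b ∈ Icc 1 Y, ((ArithmeticFunction.moebius b : ℤ) : ℝ) * chi A b / b

theorem SY_abs (A Y N : ℕ) (hY : Y ≤ N) : |SY A Y| ≤ 1 + Real.log N := by
  unfold SY
  have hlN : 0 ≤ Real.log N := Real.log_natCast_nonneg N
  rcases Nat.eq_zero_or_pos Y with rfl | hY0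
  · simp only [Icc_eq_empty_of_lt Nat.zero_lt_one, sum_empty, abs_zero]
    linarith
  calc |∑ b ∈ Icc 1 Y, ((ArithmeticFunction.moebius b : ℤ) : ℝ) * chi A b / b|
      ≤ ∑ b ∈ Icc 1 Y, |((ArithmeticFunction.moebius b : ℤ) : ℝ) * chi A b / b| :=
        abs_sum_le_sum_abs _ _
    _ ≤ ∑ b ∈ Icc 1 Y, 1 / (b : ℝ) := by
        refine sum_le_sum fun b _ => ?_
        rw [abs_div, abs_mul, Nat.abs_cast]
        apply div_le_div_of_nonneg_right _ (Nat.cast_nonneg b)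
        exact mul_le_one₀ (mu_abs b) (abs_nonneg _) (chi_abs A b)
    _ ≤ 1 + Real.log Y := harm_le Y
    _ ≤ 1 + Real.log N := by
        have : Real.log Y ≤ Real.log N :=
          Real.log_le_log (by exact_mod_cast hY0) (by exact_mod_cast hY)
        linarith

theorem T_abs (A x : ℕ) : |∑ n ∈ Icc 1 x, (chi A n : ℝ) / n| ≤ 1 + Real.log x := by
  refine le_trans ?_ (harm_le x)
  refine (abs_sum_le_sum_abs _ _).trans (sum_le_sum fun n _ => ?_)
  rw [abs_div, Nat.abs_cast]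
  exact div_le_div_of_nonneg_right (chi_abs A n) (Nat.cast_nonneg n)

theorem aux1 {l Γ : ℝ} (B : ℕ) (hl0 : 0 < l) :
    Γ * (16 * (l / l ^ (B + 2))) = 16 * Γ / l * (1 / l ^ B) := by
  have h10 : l ^ (B + 2) = l ^ B * l * l := by ring
  rw [h10]
  field_simp

/-- the deterministic part -/
theorem core {g : ℕ → ℝ} {Γ η : ℝ} (hΓ : HasSum (fun a : ℕ => |g a| * √(a : ℝ)) Γ) (hη : 0 < η)
    (B A N Q A₀ : ℕ) (hA : 3 ≤ A) (hAN : A ≤ N) (ho : Odd A) (hQN : Q ≤ N) {L C : ℝ}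
    (hL0 : 0 < L) (hLs : ∀ x : ℕ, 1 ≤ x → |∑ n ∈ Icc 1 x, (chi A n : ℝ) / n - L| ≤ 16 * A / x)
    (hCL : 2 * C * L = ∑' a : ℕ, g a * chi A a) (hηC : η ≤ 2 * C * L)
    (hsing : sing Q A = ∑ a ∈ Icc 1 Q, g a * chi A a * SY A (Q / a))
    (hl2 : 2 ≤ Real.log N) (hlΓ : 26 * Γ ≤ Real.log N) (hlη : 8 / η ≤ Real.log N)
    (hN32 : 32 * Real.log N ^ (B + 4) ≤ N) (hA₀1 : 1 ≤ A₀) (hA₀ : Real.log N ^ (B + 2) ≤ √(A₀ : ℝ))
    (hgood : ∀ a : ℕ, 1 ≤ a → a ≤ A₀ →
      |(∑ n ∈ Icc 1 (N ^ 2), (chi A n : ℝ) / n) * SY A (Q / a) - 1| ≤ 1 / Real.log N ^ (B + 2)) :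
    |sing Q A - 2 * C| ≤ 1 / Real.log N ^ B ∧ 1 / Real.log N ^ 2 ≤ C := by
  set l := Real.log N with hl
  set T := ∑ n ∈ Icc 1 (N ^ 2), (chi A n : ℝ) / n with hT
  have hl0 : 0 < l := by linarith
  have hN1 : 1 ≤ N := by omega
  have hN0 : (0 : ℝ) < N := by exact_mod_cast hN1
  have hΓ0 : 0 ≤ Γ := hΓ.nonneg fun a => mul_nonneg (abs_nonneg _) (Real.sqrt_nonneg _)
  have h16 : |T - L| ≤ 16 / N := by
    refine (hLs (N ^ 2) (Nat.one_le_pow _ _ hN1)).trans ?_
    have hAN' : (A : ℝ) ≤ N := by exact_mod_cast hAN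
    push_cast
    rw [div_le_div_iff₀ (by positivity) hN0]
    nlinarith
  -- powers of `l`
  have hp1 : l * 8 ≤ l ^ (B + 4) := by
    have h1 : (8 : ℝ) ≤ l ^ 3 := by nlinarith [sq_nonneg (l - 2)]
    have h2 : 1 ≤ l ^ B := one_le_pow₀ (by linarith)
    calc l * 8 ≤ l * l ^ 3 := mul_le_mul_of_nonneg_left h1 hl0.le
      _ = 1 * l ^ 4 := by ring
      _ ≤ l ^ B * l ^ 4 := mul_le_mul_of_nonneg_right h2 (by positivity)
      _ = l ^ (B + 4) := by rw [← pow_add]
  have hN256 : 256 * l ≤ N := by linarith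
  have hB2 : 1 / l ^ (B + 2) ≤ 1 / 2 := by
    apply one_div_le_one_div_of_le (by norm_num)
    have h2 : 1 ≤ l ^ B := one_le_pow₀ (by linarith)
    calc (2 : ℝ) ≤ 1 * l ^ 2 := by nlinarith
      _ ≤ l ^ B * l ^ 2 := mul_le_mul_of_nonneg_right h2 (by positivity)
      _ = l ^ (B + 2) := by rw [← pow_add]
  have h1l : 1 + l ≤ 2 * l := by linarith
  -- lower bound for `L`
  have hSb : ∀ a : ℕ, |SY A (Q / a)| ≤ 1 + l := fun a =>
    SY_abs A (Q / a) N ((Nat.div_le_self _ _).trans hQN)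
  have hL1 : 1 / L ≤ 8 * l := by
    have h1 := hgood 1 le_rfl hA₀1
    have h2 : 1 / 2 ≤ T * SY A (Q / 1) := by
      have := (abs_le.1 h1).1
      linarith
    have h3 : 1 / 2 ≤ |T| * (1 + l) := by
      calc (1 : ℝ) / 2 ≤ |T * SY A (Q / 1)| := h2.trans (le_abs_self _)
        _ = |T| * |SY A (Q / 1)| := abs_mul _ _
        _ ≤ |T| * (1 + l) := mul_le_mul_of_nonneg_left (hSb 1) (abs_nonneg _)
    have h4 : 1 / (4 * l) ≤ |T| := by
      rw [div_le_iff₀ (by linarith)]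
      have : |T| * (1 + l) ≤ |T| * (2 * l) := mul_le_mul_of_nonneg_left h1l (abs_nonneg _)
      nlinarith
    have h5 : |T| ≤ L + 16 / N := by
      have : |T| ≤ |T - L| + |L| := by
        calc |T| = |(T - L) + L| := by congr 1; ring
          _ ≤ _ := abs_add_le _ _
      rw [abs_of_pos hL0] at this
      linarith
    have h6 : 16 / (N : ℝ) ≤ 1 / (8 * l) := by
      rw [div_le_div_iff₀ hN0 (by linarith)]
      linarith
    have h7 : 1 / (4 * l) = 1 / (8 * l) + 1 / (8 * l) := by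
      field_simp
      norm_num
    have h8 : 1 / (8 * l) ≤ L := by linarith
    rw [div_le_iff₀ hL0]
    rw [div_le_iff₀ (by linarith)] at h8
    linarith
  have hLinv : 0 < 1 / L := by positivity
  -- upper bound for `L`
  have hL2 : L ≤ 4 * l := by
    have h1 := T_abs A (N ^ 2)
    push_cast at h1
    rw [Real.log_pow] at h1
    push_cast at h1
    rw [← hl, ← hT] at h1
    have h2 := (abs_le.1 h16).1
    have h3 := (abs_le.1 h1).2
    have h6 : 16 / (N : ℝ) ≤ 1 := by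
      rw [div_le_one hN0]
      linarith
    linarith
  refine ⟨?_, ?_⟩
  swap
  · have h1 : η ≤ 8 * l * C := by
      have hC0 : 0 < C := by
        by_contra hcon
        rw [not_lt] at hcon
        have : 2 * C * L ≤ 0 := by nlinarith
        linarith
      nlinarith
    rw [div_le_iff₀ hη] at hlη
    rw [div_le_iff₀ (by positivity)]
    nlinarith
  -- the main estimate
  have hchi0 : chi A 0 = 0 := by
    unfold chi
    rw [Nat.cast_zero]
    exact jacobiSym.zero_left (by omega)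
  have hsum1 : Summable (fun a : ℕ => g a * chi A a) := by
    refine Summable.of_norm_bounded hΓ.summable fun a => ?_
    rw [norm_mul, Real.norm_eq_abs, Real.norm_eq_abs]
    rcases Nat.eq_zero_or_pos a with rfl | ha
    · rw [hchi0]; simp
    have h1 : 1 ≤ √(a : ℝ) := by
      rw [Real.one_le_sqrt]
      exact_mod_cast ha
    exact mul_le_mul_of_nonneg_left ((chi_abs A a).trans h1) (abs_nonneg _)
  have hfin : ∀ a ∉ Icc 1 Q, g a * chi A a * SY A (Q / a) = 0 := by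
    intro a ha
    rw [mem_Icc, not_and_or] at ha
    rcases Nat.eq_zero_or_pos a with rfl | ha0
    · rw [hchi0]; simp
    have h1 : Q / a = 0 := Nat.div_eq_of_lt (by omega)
    rw [h1]
    simp [SY]
  have hs1 : sing Q A = ∑' a : ℕ, g a * chi A a * SY A (Q / a) := by
    rw [hsing, tsum_eq_sum hfin]
  have hs2 : 2 * C = ∑' a : ℕ, g a * chi A a * (1 / L) := by
    rw [tsum_mul_right, ← hCL]
    field_simp
  have hsumS : Summable (fun a : ℕ => g a * chi A a * SY A (Q / a)) :=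
    summable_of_ne_finset_zero hfin
  have hs3 : sing Q A - 2 * C = ∑' a : ℕ, g a * chi A a * (SY A (Q / a) - 1 / L) := by
    rw [hs1, hs2, ← hsumS.tsum_sub (hsum1.mul_right _)]
    refine tsum_congr fun a => ?_
    ring
  set ε := 16 * (l / l ^ (B + 2)) with hε
  have hε0 : 0 < ε := by positivity
  have hterm : ∀ a : ℕ, ‖g a * chi A a * (SY A (Q / a) - 1 / L)‖ ≤ |g a| * √(a : ℝ) * ε := by
    intro a
    rcases Nat.eq_zero_or_pos a with rfl | ha
    · rw [hchi0]; simp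
    have hs : 1 ≤ √(a : ℝ) := by
      rw [Real.one_le_sqrt]
      exact_mod_cast ha
    rw [norm_mul, norm_mul, Real.norm_eq_abs, Real.norm_eq_abs, Real.norm_eq_abs, mul_assoc,
      mul_assoc]
    apply mul_le_mul_of_nonneg_left _ (abs_nonneg _)
    have hd0 : 0 ≤ |SY A (Q / a) - 1 / L| := abs_nonneg _
    have h1 : |(chi A a : ℝ)| * |SY A (Q / a) - 1 / L| ≤ |SY A (Q / a) - 1 / L| := by
      have := chi_abs A a
      nlinarith
    refine h1.trans ?_
    rcases Nat.lt_or_ge A₀ a with h2 | h2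
    · -- large `a`
      have h3 : |SY A (Q / a) - 1 / L| ≤ 10 * l := by
        have h4 : |SY A (Q / a) - 1 / L| ≤ |SY A (Q / a)| + |1 / L| := abs_sub _ _
        rw [abs_of_pos hLinv] at h4
        have := hSb a
        linarith
      have h5 : l ^ (B + 2) ≤ √(a : ℝ) := by
        refine hA₀.trans (Real.sqrt_le_sqrt ?_)
        exact_mod_cast h2.le
      have h6 : 0 < l ^ (B + 2) := by positivity
      calc |SY A (Q / a) - 1 / L| ≤ 10 * l := h3
        _ ≤ l ^ (B + 2) * ε := by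
            rw [hε]
            have : l ^ (B + 2) * (16 * (l / l ^ (B + 2))) = 16 * l := by
              field_simp
            rw [this]
            linarith
        _ ≤ √(a : ℝ) * ε := mul_le_mul_of_nonneg_right h5 hε0.le
    · -- small `a`
      have h3 := hgood a ha h2
      have h4 : |SY A (Q / a) * L - 1| ≤ 2 * (1 / l ^ (B + 2)) := by
        have h5 : SY A (Q / a) * L - 1 = (T * SY A (Q / a) - 1) + SY A (Q / a) * (L - T) := by ring
        rw [h5]
        refine (abs_add_le _ _).trans ?_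
        have h6 : |SY A (Q / a) * (L - T)| ≤ 1 / l ^ (B + 2) := by
          rw [abs_mul, abs_sub_comm L T]
          calc |SY A (Q / a)| * |T - L| ≤ (1 + l) * (16 / N) :=
                mul_le_mul (hSb a) h16 (abs_nonneg _) (by linarith)
            _ ≤ 2 * l * (16 / N) := by
                apply mul_le_mul_of_nonneg_right h1l (by positivity)
            _ ≤ 1 / l ^ (B + 2) := by
                rw [mul_div_assoc', div_le_div_iff₀ hN0 (by positivity)]
                have h7 : l ^ (B + 4) = l ^ (B + 2) * l * l := by ring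
                have h8 : l ^ (B + 2) * l * 2 ≤ l ^ (B + 4) := by
                  rw [h7]
                  apply mul_le_mul_of_nonneg_left hl2 (by positivity)
                have h9 : 0 ≤ l ^ (B + 2) * l := by positivity
                nlinarith
        linarith
      have h5 : |SY A (Q / a) - 1 / L| = 1 / L * |SY A (Q / a) * L - 1| := by
        rw [← abs_of_pos hLinv, ← abs_mul, abs_of_pos hLinv]
        congr 1
        field_simp
      rw [h5]
      calc 1 / L * |SY A (Q / a) * L - 1| ≤ 8 * l * (2 * (1 / l ^ (B + 2))) :=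
            mul_le_mul hL1 h4 (abs_nonneg _) (by linarith)
        _ = 1 * ε := by rw [hε]; ring
        _ ≤ √(a : ℝ) * ε := mul_le_mul_of_nonneg_right hs hε0.le
  have h9 := tsum_of_norm_bounded (hΓ.mul_right ε) hterm
  rw [← hs3, Real.norm_eq_abs] at h9
  refine h9.trans ?_
  rw [hε]
  rw [aux1 B hl0]
  have h12 : 16 * Γ / l ≤ 1 := by
    rw [div_le_one hl0]
    linarith
  have h13 : 0 ≤ 1 / l ^ B := by positivity
  exact mul_le_of_le_one_left h13 h12

/-- **SS.** -/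
theorem ss : S_EUL → S_TAIL → S_SS := by
  rintro ⟨g, η, hη, hsum, hE⟩ hTail B
  obtain ⟨Γ, hΓ⟩ := hsum
  obtain ⟨K₁, N₁, hT⟩ := hTail (B + 2)
  -- large `N`
  have hlog : Tendsto (fun n : ℕ => Real.log n) atTop atTop :=
    Real.tendsto_log_atTop.comp tendsto_natCast_atTop_atTop
  have hev : ∀ᶠ n : ℕ in atTop, 32 * Real.log n ^ (B + 4) ≤ n := by
    have h1 := (Real.isLittleO_pow_log_id_atTop (n := B + 4)).bound (by norm_num : (0 : ℝ) < 1 / 32)
    have h2 := tendsto_natCast_atTop_atTop (R := ℝ) |>.eventually h1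
    filter_upwards [h2] with n hn
    rw [Real.norm_eq_abs, Real.norm_eq_abs, id, Nat.abs_cast, abs_of_nonneg (by
      have := Real.log_natCast_nonneg n
      positivity)] at hn
    linarith
  have hall : ∀ᶠ n : ℕ in atTop, N₁ ≤ n ∧ 2 ≤ Real.log n ∧ 26 * Γ ≤ Real.log n ∧
      8 / η ≤ Real.log n ∧ 32 * Real.log n ^ (B + 4) ≤ n := by
    filter_upwards [eventually_ge_atTop N₁, hlog.eventually_ge_atTop 2,
      hlog.eventually_ge_atTop (26 * Γ), hlog.eventually_ge_atTop (8 / η), hev] with n h1 h2 h3 h4 h5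
    exact ⟨h1, h2, h3, h4, h5⟩
  obtain ⟨N₀, hN₀⟩ := eventually_atTop.1 hall
  refine ⟨K₁ + 8 * B + 17, N₀, fun N Q hN hKQ hQ1000 => ?_⟩
  obtain ⟨hN1, hl2, hlΓ, hlη, hN32⟩ := hN₀ N hN
  obtain ⟨l, hl⟩ : ∃ l : ℝ, l = Real.log N := ⟨_, rfl⟩
  rw [← hl] at hl2 hKQ
  have hl0 : 0 < l := by linarith
  have hl1 : 1 ≤ l := by linarith
  -- the cut
  obtain ⟨c, hc⟩ : ∃ c : ℕ, c = ⌈l⌉₊ := ⟨_, rfl⟩
  obtain ⟨A₀, hA₀⟩ : ∃ A₀ : ℕ, A₀ = c ^ (2 * (B + 2)) := ⟨_, rfl⟩
  have hlc : l ≤ c := by rw [hc]; exact Nat.le_ceil l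
  have hcl : (c : ℝ) ≤ l ^ 2 := by
    have h1 : (c : ℝ) < l + 1 := by rw [hc]; exact Nat.ceil_lt_add_one hl0.le
    nlinarith
  have hc1 : 1 ≤ c := by
    have : (0 : ℝ) < c := lt_of_lt_of_le hl0 hlc
    exact_mod_cast this
  have hA₀1 : 1 ≤ A₀ := by rw [hA₀]; exact Nat.one_le_pow _ _ hc1
  have hA₀l : (A₀ : ℝ) ≤ l ^ (4 * B + 8) := by
    rw [hA₀]
    push_cast
    calc (c : ℝ) ^ (2 * (B + 2)) ≤ (l ^ 2) ^ (2 * (B + 2)) :=
          pow_le_pow_left₀ (Nat.cast_nonneg c) hcl _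
      _ = l ^ (4 * B + 8) := by rw [← pow_mul]; congr 1; ring
  have hA₀s : l ^ (B + 2) ≤ √(A₀ : ℝ) := by
    apply Real.le_sqrt_of_sq_le
    rw [hA₀]
    push_cast
    rw [← pow_mul, mul_comm (B + 2) 2]
    exact pow_le_pow_left₀ hl0.le hlc _
  have hQr : (0 : ℝ) < Q := lt_of_lt_of_le (by positivity) hKQ
  have hQ0 : 1 ≤ Q := by exact_mod_cast hQr
  have hQr1 : (1 : ℝ) ≤ Q := by exact_mod_cast hQ0
  have hA₀Q : A₀ ≤ Q := by
    have h1 : (A₀ : ℝ) ≤ Q := by
      refine hA₀l.trans (le_trans ?_ hKQ)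
      exact pow_le_pow_right₀ hl1 (by omega)
    exact_mod_cast h1
  have hQN : Q ≤ N := le_trans (Nat.le_self_pow (by norm_num) Q) hQ1000
  -- the exceptional set
  refine ⟨(Icc 1 A₀).biUnion (fun a => (Icc 1 N).filter (fun A : ℕ => Odd A ∧
      1 / Real.log N ^ (B + 2) < |(∑ n ∈ Icc 1 (N ^ 2), (chi A n : ℝ) / n) *
        (∑ k ∈ Icc 1 (Q / a), ((ArithmeticFunction.moebius k : ℤ) : ℝ) * chi A k / k) - 1|)), ?_, ?_⟩
  · have h1 : ∀ a ∈ Icc 1 A₀, ((((Icc 1 N).filter (fun A : ℕ => Odd A ∧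
      1 / Real.log N ^ (B + 2) < |(∑ n ∈ Icc 1 (N ^ 2), (chi A n : ℝ) / n) *
        (∑ k ∈ Icc 1 (Q / a), ((ArithmeticFunction.moebius k : ℤ) : ℝ) * chi A k / k) - 1|)).card : ℕ) : ℝ) ≤
        N * l ^ K₁ * (2 * A₀ / Q) := by
      intro a ha
      rw [mem_Icc] at ha
      have haQ : a ≤ Q := ha.2.trans hA₀Q
      have h2 := hT N (Q / a) hN1 (Nat.div_pos haQ (by omega))
        (le_trans (Nat.pow_le_pow_left (Nat.div_le_self Q a) 1000) hQ1000)
      rw [← hl] at h2 ⊢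
      refine h2.trans ?_
      have ha0 : (0 : ℝ) < a := by exact_mod_cast (by omega : 0 < a)
      have hq1 : (1 : ℝ) ≤ ((Q / a : ℕ) : ℝ) := by exact_mod_cast Nat.div_pos haQ (by omega)
      have h3 : (Q : ℝ) ≤ 2 * a * ((Q / a : ℕ) : ℝ) := by
        have h4 : Q < a * (Q / a + 1) := Nat.lt_mul_div_succ Q (by omega)
        have h5 : (Q : ℝ) < a * (((Q / a : ℕ) : ℝ) + 1) := by exact_mod_cast h4
        nlinarith
      have h6 : (a : ℝ) ≤ A₀ := by exact_mod_cast ha.2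
      rw [div_le_iff₀ (by linarith)]
      have h7 : 1 ≤ 2 * A₀ / Q * ((Q / a : ℕ) : ℝ) := by
        rw [div_mul_eq_mul_div, le_div_iff₀ hQr, one_mul]
        refine h3.trans ?_
        apply mul_le_mul_of_nonneg_right _ (by linarith)
        linarith
      have h8 : 0 ≤ (N : ℝ) * l ^ K₁ := by positivity
      calc (N : ℝ) * l ^ K₁ = N * l ^ K₁ * 1 := (mul_one _).symm
        _ ≤ N * l ^ K₁ * (2 * A₀ / Q * ((Q / a : ℕ) : ℝ)) := mul_le_mul_of_nonneg_left h7 h8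
        _ = N * l ^ K₁ * (2 * A₀ / Q) * ((Q / a : ℕ) : ℝ) := by ring
    have h2 : ((((Icc 1 A₀).biUnion (fun a => (Icc 1 N).filter (fun A : ℕ => Odd A ∧
      1 / Real.log N ^ (B + 2) < |(∑ n ∈ Icc 1 (N ^ 2), (chi A n : ℝ) / n) *
        (∑ k ∈ Icc 1 (Q / a), ((ArithmeticFunction.moebius k : ℤ) : ℝ) * chi A k / k) - 1|))).card : ℕ) : ℝ) ≤
        ∑ a ∈ Icc 1 A₀, N * l ^ K₁ * (2 * A₀ / Q) := by
      refine le_trans ?_ (sum_le_sum h1)
      exact_mod_cast card_biUnion_le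
    refine h2.trans ?_
    rw [sum_const, Nat.card_Icc, nsmul_eq_mul, Nat.add_sub_cancel]
    rw [← hl]
    have hA₀0 : (0 : ℝ) ≤ A₀ := Nat.cast_nonneg _
    have h3 : (A₀ : ℝ) * (2 * A₀) ≤ l ^ (8 * B + 17) := by
      calc (A₀ : ℝ) * (2 * A₀) ≤ l ^ (4 * B + 8) * (l * l ^ (4 * B + 8)) := by
            apply mul_le_mul hA₀l _ (by positivity) (by positivity)
            exact mul_le_mul hl2 hA₀l hA₀0 hl0.le
        _ = l ^ (8 * B + 17) := by ring
    have h4 : 1 / (Q : ℝ) ≤ 1 / √(Q : ℝ) := by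
      apply one_div_le_one_div_of_le (Real.sqrt_pos.2 hQr)
      rw [Real.sqrt_le_left (by linarith)]
      nlinarith
    calc (A₀ : ℝ) * (N * l ^ K₁ * (2 * A₀ / Q)) = N * l ^ K₁ * (A₀ * (2 * A₀)) * (1 / Q) := by ring
      _ ≤ N * l ^ K₁ * l ^ (8 * B + 17) * (1 / √(Q : ℝ)) := by
          apply mul_le_mul _ h4 (by positivity) (by positivity)
          exact mul_le_mul_of_nonneg_left h3 (by positivity)
      _ = N * l ^ (K₁ + 8 * B + 17) / √(Q : ℝ) := by
          rw [show K₁ + 8 * B + 17 = K₁ + (8 * B + 17) by ring, pow_add]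
          ring
  · intro A hA ho hAE
    rw [mem_Icc] at hA
    obtain ⟨L, C, hL0, hLs, hIsC, hCL, hηC, hs⟩ := hE A hA.1 ho
    refine ⟨C, hIsC, ?_⟩
    refine core hΓ hη B A N Q A₀ hA.1 hA.2 ho hQN hL0 hLs hCL hηC (hs Q) (by rw [← hl]; exact hl2) hlΓ
      hlη hN32 hA₀1 (by rw [← hl]; exact hA₀s) ?_
    intro a ha1 ha2
    by_contra hcon
    rw [not_le] at hcon
    apply hAE
    rw [mem_biUnion]
    refine ⟨a, mem_Icc.2 ⟨ha1, ha2⟩, ?_⟩
    rw [mem_filter, mem_Icc]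
    exact ⟨⟨by omega, hA.2⟩, ho, hcon⟩

end Pool.Agent.P8H96.CF.SS
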