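import Pool.Agent.P8H14.CF.Defs

/-!
# The character `chi A` (package EUL)
-/

set_option autoImplicit false

namespace Pool.Agent.P8H96.CF

open Finset Filter Topology Pool.Agent.P8H14.CF
open scoped NumberTheorySymbols

theorem chi_mul (A m n : ℕ) : chi A (m * n) = chi A m * chi A n := by
  unfold chi
  rw [Nat.cast_mul, jacobiSym.mul_left]

theorem chi_one (A : ℕ) : chi A 1 = 1 := by
  unfold chi
  rw [Nat.cast_one, jacobiSym.one_left]

theorem chi_zero {A : ℕ} (h : 3 ≤ A) : chi A 0 = 0 := by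
  unfold chi
  rw [Nat.cast_zero]
  exact jacobiSym.zero_left (by omega)

theorem chi_tri (A n : ℕ) : chi A n = 0 ∨ chi A n = 1 ∨ chi A n = -1 :=
  jacobiSym.trichotomy _ _

theorem chi_abs (A n : ℕ) : |(chi A n : ℝ)| ≤ 1 := by
  rcases chi_tri A n with h | h | h <;> rw [h] <;> norm_num

theorem chi_pow (A n k : ℕ) : chi A (n ^ k) = chi A n ^ k := by
  unfold chi
  rw [Nat.cast_pow, jacobiSym.pow_left]

theorem chi_two {A : ℕ} (ho : Odd A) : chi A 2 = -1 := by
  obtain ⟨k, rfl⟩ := ho
  unfold chi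
  have e : 4 * (2 * k + 1) - 1 = 8 * k + 3 := by omega
  rw [e]
  have e2 : ((2 : ℕ) : ℤ) = 2 := rfl
  rw [e2, jacobiSym.at_two ⟨4 * k + 1, by ring⟩, ZMod.χ₈_nat_eq_if_mod_eight]
  have h1 : (8 * k + 3) % 2 = 1 := by omega
  have h2 : (8 * k + 3) % 8 = 3 := by omega
  rw [h1, h2]
  norm_num

theorem chi_per (A n : ℕ) : chi A (n % (4 * A - 1)) = chi A n := by
  unfold chi
  rw [jacobiSym.mod_left (n : ℤ), Int.natCast_mod]

theorem chi_add (A n : ℕ) : chi A (4 * A - 1 + n) = chi A n := by
  rw [← chi_per A (4 * A - 1 + n), Nat.add_mod_left, chi_per]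

/-- the sum over a period -/
theorem chi_sum {A : ℕ} (h : 3 ≤ A) (ho : Odd A) : ∑ n ∈ range (4 * A - 1), chi A n = 0 := by
  have hD : 0 < 4 * A - 1 := by omega
  have him : (range (4 * A - 1)).image (fun n => 2 * n % (4 * A - 1)) = range (4 * A - 1) := by
    apply Finset.eq_of_subset_of_card_le
    · intro x hx
      rw [mem_image] at hx
      obtain ⟨n, -, rfl⟩ := hx
      exact mem_range.2 (Nat.mod_lt _ hD)
    · rw [card_image_of_injOn]
      intro a ha b hb hab
      rw [mem_coe, mem_range] at ha hb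
      have hab' : 2 * a % (4 * A - 1) = 2 * b % (4 * A - 1) := hab
      have h1 : a ≡ b [MOD 4 * A - 1] := by
        have hc : Nat.gcd (4 * A - 1) 2 = 1 := by
          rw [← Nat.coprime_iff_gcd_eq_one, Nat.coprime_comm, Nat.coprime_two_left]
          exact ⟨2 * A - 1, by omega⟩
        exact Nat.ModEq.cancel_left_of_coprime hc hab'
      have h2 : a % (4 * A - 1) = b % (4 * A - 1) := h1
      rwa [Nat.mod_eq_of_lt ha, Nat.mod_eq_of_lt hb] at h2
  have h1 : ∑ n ∈ range (4 * A - 1), chi A n = ∑ n ∈ range (4 * A - 1), chi A (2 * n) := by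
    conv_lhs => rw [← him]
    rw [sum_image]
    · exact sum_congr rfl fun n _ => chi_per A (2 * n)
    · have hinj : Set.InjOn (fun n => 2 * n % (4 * A - 1)) ((range (4 * A - 1) : Finset ℕ) : Set ℕ) := by
        apply Finset.card_image_iff.1
        rw [him]
      exact fun a ha b hb => hinj ha hb
  have h2 : ∑ n ∈ range (4 * A - 1), chi A (2 * n) = - ∑ n ∈ range (4 * A - 1), chi A n := by
    rw [← sum_neg_distrib]
    refine sum_congr rfl fun n _ => ?_
    rw [chi_mul, chi_two ho]
    ring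
  omega

theorem chi_bound {A : ℕ} (h : 3 ≤ A) (ho : Odd A) (N : ℕ) :
    |(∑ n ∈ range N, chi A n : ℝ)| ≤ 4 * A - 1 := by
  induction N using Nat.strong_induction_on with
  | _ N ih =>
    rcases Nat.lt_or_ge N (4 * A - 1) with hN | hN
    · have h1 : |(∑ n ∈ range N, (chi A n : ℝ))| ≤ ∑ n ∈ range N, (1 : ℝ) :=
        (abs_sum_le_sum_abs _ _).trans (sum_le_sum fun n _ => chi_abs A n)
      rw [sum_const, card_range, nsmul_eq_mul, mul_one] at h1
      have h2 : (N : ℝ) ≤ 4 * A - 1 := by
        have : (N : ℝ) + 1 ≤ 4 * A := by exact_mod_cast (by omega : N + 1 ≤ 4 * A)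
        linarith
      exact h1.trans h2
    · obtain ⟨M, rfl⟩ := Nat.exists_eq_add_of_le hN
      have h1 : ∑ n ∈ range (4 * A - 1 + M), (chi A n : ℝ) = ∑ n ∈ range M, (chi A n : ℝ) := by
        rw [sum_range_add]
        have h2 : ∑ n ∈ range (4 * A - 1), (chi A n : ℝ) = 0 := by
          have := chi_sum h ho
          exact_mod_cast this
        rw [h2, zero_add]
        exact sum_congr rfl fun n _ => by rw [chi_add]
      rw [h1]
      exact ih M (by omega)

/-- reciprocity: `(Δ / p) = chi A p` for odd primes -/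
theorem chi_jac {A : ℕ} (h : 3 ≤ A) {p : ℕ} (hp : Odd p) :
    jacobiSym (1 - 4 * (A : ℤ)) p = chi A p := by
  have hD : Odd (4 * A - 1) := ⟨2 * A - 1, by omega⟩
  have hD4 : (4 * A - 1) % 4 = 3 := by omega
  have e : (1 - 4 * (A : ℤ)) = - ((4 * A - 1 : ℕ) : ℤ) := by
    rw [Nat.cast_sub (by omega)]
    push_cast
    ring
  rw [e, jacobiSym.neg _ hp]
  unfold chi
  have hp2 : p % 4 = 1 ∨ p % 4 = 3 := by
    obtain ⟨k, rfl⟩ := hp
    omega
  rcases hp2 with h1 | h3
  · rw [ZMod.χ₄_nat_one_mod_four h1, one_mul, jacobiSym.quadratic_reciprocity_one_mod_four' hD h1]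
  · rw [ZMod.χ₄_nat_three_mod_four h3, jacobiSym.quadratic_reciprocity_three_mod_four hD4 h3]
    ring

/-- the number of solutions -/
theorem rho_eq {A : ℕ} (h : 3 ≤ A) (ho : Odd A) {p : ℕ} (hp : p.Prime) :
    (rho A p : ℝ) - 1 = chi A p := by
  rcases hp.eq_two_or_odd' with rfl | hodd
  · have h0 : rho A 2 = 0 := by
      unfold rho
      rw [card_eq_zero, filter_eq_empty_iff]
      intro b _ hb
      obtain ⟨k, rfl⟩ := ho
      unfold F at hb
      have h1 : 2 ∣ b ^ 2 + b := by
        have : b ^ 2 + b = b * (b + 1) := by ring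
        rw [this]
        exact (Nat.even_mul_succ_self b).two_dvd
      have h2 := (Nat.dvd_add_right h1).1 hb
      omega
    rw [h0, chi_two ho]
    norm_num
  · have : Fact p.Prime := ⟨hp⟩
    have hp2 : p ≠ 2 := by
      rintro rfl
      exact absurd hodd (by decide)
    rw [← chi_jac h hodd, ← jacobiSym.legendreSym.to_jacobiSym]
    have h1 := legendreSym.card_sqrts p hp2 (1 - 4 * (A : ℤ))
    have h2 : rho A p = (Set.toFinset {x : ZMod p | x ^ 2 = ((1 - 4 * (A : ℤ) : ℤ) : ZMod p)}).card := by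
      unfold rho
      have h2ne : (2 : ZMod p) ≠ 0 := by
        intro h0
        have : ((2 : ℕ) : ZMod p) = 0 := by exact_mod_cast h0
        rw [ZMod.natCast_eq_zero_iff] at this
        exact hp2 ((Nat.prime_dvd_prime_iff_eq hp Nat.prime_two).1 this)
      have key : ∀ b : ℕ, p ∣ F b + A ↔
          (2 * (b : ZMod p) + 1) ^ 2 = ((1 - 4 * (A : ℤ) : ℤ) : ZMod p) := by
        intro b
        rw [← ZMod.natCast_eq_zero_iff]
        unfold F
        push_cast
        constructor
        · intro h3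
          linear_combination 4 * h3
        · intro h3
          have h4 : (4 : ZMod p) * ((b : ZMod p) ^ 2 + b + A) = 0 := by linear_combination h3
          rcases mul_eq_zero.1 h4 with h5 | h5
          · exfalso
            have : (2 : ZMod p) * 2 = 0 := by
              rw [← h5]; norm_num
            rcases mul_eq_zero.1 this with h6 | h6 <;> exact h2ne h6
          · exact h5
      refine card_bij' (fun b _ => 2 * (b : ZMod p) + 1) (fun x _ => ((x - 1) / 2 : ZMod p).val)
        ?_ ?_ ?_ ?_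
      · intro b hb
        rw [mem_filter] at hb
        rw [Set.mem_toFinset, Set.mem_ofPred_eq]
        exact (key b).1 hb.2
      · intro x hx
        rw [Set.mem_toFinset, Set.mem_ofPred_eq] at hx
        rw [mem_filter, mem_range]
        refine ⟨ZMod.val_lt _, (key _).2 ?_⟩
        rw [ZMod.natCast_val, ZMod.cast_id', id, mul_div_cancel₀ _ h2ne, sub_add_cancel]
        exact hx
      · intro b hb
        rw [mem_filter, mem_range] at hb
        simp only [add_sub_cancel_right]
        rw [mul_div_cancel_left₀ _ h2ne, ZMod.val_natCast, Nat.mod_eq_of_lt hb.1]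
      · intro x _
        rw [ZMod.natCast_val, ZMod.cast_id', id, mul_div_cancel₀ _ h2ne, sub_add_cancel]
    rw [h2]
    have h3 : ((Set.toFinset {x : ZMod p | x ^ 2 = ((1 - 4 * (A : ℤ) : ℤ) : ZMod p)}).card : ℝ) =
        (legendreSym p (1 - 4 * (A : ℤ)) : ℝ) + 1 := by
      exact_mod_cast h1
    rw [h3]
    ring

end Pool.Agent.P8H96.CF
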