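import Pool.Agent.P8H96.CF.Lser

/-!
# The Euler product of `L(1, χ)` (package EUL)
-/

set_option autoImplicit false

namespace Pool.Agent.P8H96.CF

open Finset Filter Topology Pool.Agent.P8H14.CF

/-- the terms of the series as a completely multiplicative function -/
noncomputable def ff {A : ℕ} (h : 3 ≤ A) (δ : ℝ) (hδ : 0 < δ) : ℕ →*₀ ℝ where
  toFun n := (chi A n : ℝ) * (n : ℝ) ^ (-(1 + δ))
  map_zero' := by rw [chi_zero h]; simp
  map_one' := by rw [chi_one]; simp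
  map_mul' m n := by
    rw [chi_mul, Nat.cast_mul, Real.mul_rpow (Nat.cast_nonneg _) (Nat.cast_nonneg _)]
    push_cast
    ring

theorem ff_summable {A : ℕ} (h : 3 ≤ A) (δ : ℝ) (hδ : 0 < δ) : Summable (‖ff h δ hδ ·‖) := by
  have h1 : Summable (fun n : ℕ => (n : ℝ) ^ (-(1 + δ))) := Real.summable_nat_rpow.2 (by linarith)
  refine Summable.of_nonneg_of_le (fun _ => norm_nonneg _) (fun n => ?_) h1
  change ‖(chi A n : ℝ) * (n : ℝ) ^ (-(1 + δ))‖ ≤ _
  rw [norm_mul, Real.norm_eq_abs, Real.norm_eq_abs, abs_of_nonneg (by positivity : 0 ≤ (n : ℝ) ^ (-(1 + δ)))]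
  have h2 : (0 : ℝ) ≤ (n : ℝ) ^ (-(1 + δ)) := by positivity
  nlinarith [chi_abs A n]

theorem exp_W1 (A N : ℕ) {δ : ℝ} (hδ : 0 ≤ δ) : Real.exp (W1 A N δ) =
    ∏ p ∈ Nat.primesBelow (N + 1), (1 - (chi A p : ℝ) * (p : ℝ) ^ (-(1 + δ)))⁻¹ := by
  unfold W1
  rw [Real.exp_sum]
  have hs : (Ioc 0 N).filter Nat.Prime = Nat.primesBelow (N + 1) := by
    ext p
    rw [mem_filter, mem_Ioc, Nat.mem_primesBelow]
    constructor
    · rintro ⟨h1, h2⟩; exact ⟨by omega, h2⟩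
    · rintro ⟨h1, h2⟩; exact ⟨⟨h2.pos, by omega⟩, h2⟩
  rw [hs]
  refine prod_congr rfl fun p hp => ?_
  rw [Nat.mem_primesBelow] at hp
  rw [Real.exp_neg, Real.exp_log (x_pos A hp.2.two_le hδ)]

theorem W1_tendsto {A : ℕ} (h : 3 ≤ A) {V : ℝ → ℝ}
    (hV : ∀ δ : ℝ, 0 ≤ δ → Tendsto (fun N => T1 A N δ) atTop (𝓝 (V δ))) {δ : ℝ} (hδ : 0 < δ) :
    Tendsto (fun N => Real.exp (W1 A N δ)) atTop (𝓝 (V δ)) := by
  have h1 := EulerProduct.eulerProduct_completely_multiplicative (ff_summable h δ hδ)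
  have h2 : ∑' n, ff h δ hδ n = V δ := by
    have h3 := (ff_summable h δ hδ).of_norm.hasSum.tendsto_sum_nat
    have h4 := h3.comp (tendsto_add_atTop_nat 1)
    refine tendsto_nhds_unique h4 ?_
    refine (hV δ hδ.le).congr fun N => ?_
    change T1 A N δ = ∑ n ∈ range (N + 1), ff h δ hδ n
    rw [sum_range_Ioc, map_zero, zero_add]
    rfl
  rw [h2] at h1
  have h5 := h1.comp (tendsto_add_atTop_nat 1)
  refine h5.congr fun N => ?_
  change ∏ p ∈ Nat.primesBelow (N + 1), (1 - ff h δ hδ p)⁻¹ = _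
  rw [exp_W1 A N hδ.le]
  rfl

theorem W1_cont (A M : ℕ) : Tendsto (fun δ => W1 A M δ) (𝓝[>] 0) (𝓝 (W1 A M 0)) := by
  have hc : ContinuousOn (fun δ => W1 A M δ) (Set.Ici (0 : ℝ)) := by
    unfold W1
    apply continuousOn_finsetSum
    intro p hp
    rw [mem_filter] at hp
    have hp0 : (p : ℝ) ≠ 0 := by exact_mod_cast hp.2.ne_zero
    apply ContinuousOn.neg
    apply ContinuousOn.log
    · apply Continuous.continuousOn
      apply Continuous.sub continuous_const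
      apply Continuous.mul continuous_const
      exact (Real.continuous_const_rpow hp0).comp (by fun_prop)
    · intro δ hδ
      exact (x_pos A hp.2.two_le hδ).ne'
  have h1 := hc 0 (Set.mem_Ici.2 le_rfl)
  exact h1.mono_left (nhdsWithin_mono _ fun x hx => Set.mem_Ici.2 (le_of_lt hx))

/-- `L = L(1, χ)` is positive, the series converges to it, and so does the Euler product -/
theorem exists_L {A : ℕ} (h : 3 ≤ A) (ho : Odd A) : ∃ L : ℝ, 0 < L ∧
    (∀ N : ℕ, |T1 A N 0 - L| ≤ 8 * A / (N + 1)) ∧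
    Tendsto (fun N => ∏ p ∈ Nat.primesBelow N, (1 - (chi A p : ℝ) / p)) atTop (𝓝 L⁻¹) := by
  obtain ⟨V, hV⟩ := exists_V h ho
  have hVc := V_cont (fun δ hδ N => (hV δ hδ).2 N)
  have key : ∀ ε : ℝ, 0 < ε → ∃ M0 : ℕ, ∀ M : ℕ, M0 ≤ M →
      Real.exp (W1 A M 0 - ε) ≤ V 0 ∧ V 0 ≤ Real.exp (W1 A M 0 + ε) := by
    intro ε hε
    obtain ⟨M0, -, hM0⟩ := W1_cauchy h ε hε
    refine ⟨M0, fun M hM => ?_⟩
    have h1 : ∀ δ : ℝ, 0 < δ → Real.exp (W1 A M δ - ε) ≤ V δ ∧ V δ ≤ Real.exp (W1 A M δ + ε) := by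
      intro δ hδ
      have ht := W1_tendsto h (fun δ hδ => (hV δ hδ).1) hδ
      constructor
      · refine ge_of_tendsto ht ?_
        filter_upwards [eventually_ge_atTop M] with N hN
        apply Real.exp_le_exp.2
        have := (abs_le.1 (hM0 M N hM hN δ hδ.le)).1
        linarith
      · refine le_of_tendsto ht ?_
        filter_upwards [eventually_ge_atTop M] with N hN
        apply Real.exp_le_exp.2
        have := (abs_le.1 (hM0 M N hM hN δ hδ.le)).2
        linarith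
    have hc := W1_cont A M
    constructor
    · have h2 : Tendsto (fun δ => Real.exp (W1 A M δ - ε)) (𝓝[>] 0) (𝓝 (Real.exp (W1 A M 0 - ε))) :=
        (Real.continuous_exp.tendsto _).comp (hc.sub_const ε)
      refine le_of_tendsto_of_tendsto h2 hVc ?_
      filter_upwards [self_mem_nhdsWithin] with δ hδ
      exact (h1 δ hδ).1
    · have h2 : Tendsto (fun δ => Real.exp (W1 A M δ + ε)) (𝓝[>] 0) (𝓝 (Real.exp (W1 A M 0 + ε))) :=
        (Real.continuous_exp.tendsto _).comp (hc.add_const ε)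
      refine le_of_tendsto_of_tendsto hVc h2 ?_
      filter_upwards [self_mem_nhdsWithin] with δ hδ
      exact (h1 δ hδ).2
  have hL : 0 < V 0 := by
    obtain ⟨M0, hM0⟩ := key 1 one_pos
    exact lt_of_lt_of_le (Real.exp_pos _) (hM0 M0 le_rfl).1
  refine ⟨V 0, hL, (hV 0 le_rfl).2, ?_⟩
  have hlog : Tendsto (fun M => W1 A M 0) atTop (𝓝 (Real.log (V 0))) := by
    rw [Metric.tendsto_atTop]
    intro ε hε
    obtain ⟨M0, hM0⟩ := key (ε / 2) (by linarith)
    refine ⟨M0, fun M hM => ?_⟩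
    obtain ⟨h1, h2⟩ := hM0 M hM
    have h3 : W1 A M 0 - ε / 2 ≤ Real.log (V 0) := (Real.le_log_iff_exp_le hL).2 h1
    have h4 : Real.log (V 0) ≤ W1 A M 0 + ε / 2 := (Real.log_le_iff_le_exp hL).2 h2
    rw [Real.dist_eq, abs_lt]
    constructor <;> linarith
  have h5 : Tendsto (fun M => Real.exp (-W1 A M 0)) atTop (𝓝 (V 0)⁻¹) := by
    have h6 : (V 0)⁻¹ = Real.exp (-Real.log (V 0)) := by rw [Real.exp_neg, Real.exp_log hL]
    rw [h6]
    exact (Real.continuous_exp.tendsto _).comp hlog.neg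
  have h7 : Tendsto (fun M => ∏ p ∈ Nat.primesBelow (M + 1), (1 - (chi A p : ℝ) / p)) atTop
      (𝓝 (V 0)⁻¹) := by
    refine h5.congr fun M => ?_
    rw [Real.exp_neg, exp_W1 A M le_rfl, ← prod_inv_distrib]
    refine prod_congr rfl fun p hp => ?_
    rw [inv_inv, add_zero, Real.rpow_neg_one]
    rfl
  exact (tendsto_add_atTop_iff_nat 1).1 h7

end Pool.Agent.P8H96.CF
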