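import Pool.Agent.P8H96.CF.Chr
import Pool.Agent.W468.CFProd

/-!
# The series `∑ χ(n)/n` and its Euler product (package EUL)
-/

set_option autoImplicit false

namespace Pool.Agent.P8H96.CF

open Finset Filter Topology Pool.Agent.P8H14.CF

theorem abel_bd (X u : ℕ → ℝ) (D : ℕ) (B : ℝ) (hB : ∀ N, D ≤ N → |∑ d ∈ Ioc D N, X d| ≤ B)
    (hu0 : ∀ d, D + 1 ≤ d → 0 ≤ u d) (hu : ∀ d, D + 1 ≤ d → u (d + 1) ≤ u d) (N : ℕ)
    (hN' : D ≤ N) : |∑ d ∈ Ioc D N, X d * u d| ≤ B * u (D + 1) := by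
  have hB0 : 0 ≤ B := (abs_nonneg _).trans (hB D le_rfl)
  rcases Nat.eq_or_lt_of_le hN' with rfl | hN
  · rw [Ioc_self, sum_empty, abs_zero]
    exact mul_nonneg hB0 (hu0 _ le_rfl)
  have hind : ∀ N, D + 1 ≤ N →
      |∑ d ∈ Ioc D N, X d * u d - (∑ d ∈ Ioc D N, X d) * u N| ≤ B * (u (D + 1) - u N) := by
    intro N hN
    induction N, hN using Nat.le_induction with
    | base => simp
    | succ N hN ih =>
      rw [← Finset.insert_Ioc_right_eq_Ioc_add_one (by omega : D ≤ N), Finset.sum_insert (by simp),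
        Finset.sum_insert (by simp)]
      have h1 : X (N + 1) * u (N + 1) + ∑ d ∈ Ioc D N, X d * u d -
          (X (N + 1) + ∑ d ∈ Ioc D N, X d) * u (N + 1)
          = (∑ d ∈ Ioc D N, X d * u d - (∑ d ∈ Ioc D N, X d) * u N) +
            (∑ d ∈ Ioc D N, X d) * (u N - u (N + 1)) := by ring
      rw [h1]
      have h2 : |(∑ d ∈ Ioc D N, X d) * (u N - u (N + 1))| ≤ B * (u N - u (N + 1)) := by
        rw [abs_mul, abs_of_nonneg (sub_nonneg.2 (hu N hN))]
        exact mul_le_mul_of_nonneg_right (hB N (by omega)) (sub_nonneg.2 (hu N hN))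
      calc |(∑ d ∈ Ioc D N, X d * u d - (∑ d ∈ Ioc D N, X d) * u N) +
            (∑ d ∈ Ioc D N, X d) * (u N - u (N + 1))|
          ≤ _ := abs_add_le _ _
        _ ≤ B * (u (D + 1) - u N) + B * (u N - u (N + 1)) := add_le_add ih h2
        _ = B * (u (D + 1) - u (N + 1)) := by ring
  have h1 := hind N hN
  have h2 : |(∑ d ∈ Ioc D N, X d) * u N| ≤ B * u N := by
    rw [abs_mul, abs_of_nonneg (hu0 N hN)]
    exact mul_le_mul_of_nonneg_right (hB N (by omega)) (hu0 N hN)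
  calc |∑ d ∈ Ioc D N, X d * u d|
      = |(∑ d ∈ Ioc D N, X d * u d - (∑ d ∈ Ioc D N, X d) * u N) + (∑ d ∈ Ioc D N, X d) * u N| := by
        congr 1; ring
    _ ≤ _ := abs_add_le _ _
    _ ≤ B * (u (D + 1) - u N) + B * u N := add_le_add h1 h2
    _ = B * u (D + 1) := by ring

theorem sum_range_Ioc (f : ℕ → ℝ) (N : ℕ) :
    ∑ n ∈ range (N + 1), f n = f 0 + ∑ n ∈ Ioc 0 N, f n := by
  induction N with
  | zero => simp
  | succ N ih =>
    rw [sum_range_succ, ih, ← Finset.insert_Ioc_right_eq_Ioc_add_one (Nat.zero_le N),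
      Finset.sum_insert (by simp)]
    ring

theorem pw_anti {δ : ℝ} (hδ : 0 ≤ δ) (d : ℕ) (hd : 1 ≤ d) :
    (((d + 1 : ℕ) : ℝ)) ^ (-δ) ≤ (d : ℝ) ^ (-δ) := by
  apply Real.rpow_le_rpow_of_nonpos
  · exact_mod_cast hd
  · push_cast; linarith
  · linarith

/-- the partial sums of the series `∑ χ(n) n ^ (-1-δ)` -/
noncomputable def T1 (A N : ℕ) (δ : ℝ) : ℝ := ∑ n ∈ Ioc 0 N, (chi A n : ℝ) * (n : ℝ) ^ (-(1 + δ))

theorem T1_diff {A : ℕ} (h : 3 ≤ A) (ho : Odd A) {δ : ℝ} (hδ : 0 ≤ δ) {M N : ℕ} (hMN : M ≤ N) :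
    |T1 A N δ - T1 A M δ| ≤ 8 * A / (M + 1) := by
  have h0 : T1 A N δ - T1 A M δ = ∑ n ∈ Ioc M N, (chi A n : ℝ) * (n : ℝ) ^ (-(1 + δ)) := by
    unfold T1
    rw [← sum_Ioc_consecutive _ (Nat.zero_le M) hMN]
    ring
  rw [h0]
  have h1 := abel_bd (fun n => (chi A n : ℝ)) (fun n => (n : ℝ) ^ (-(1 + δ))) M (2 * (4 * A - 1))
    (fun K hK => by
      have e1 : ∑ d ∈ Ioc M K, (chi A d : ℝ) = ∑ d ∈ range (K + 1), (chi A d : ℝ) -
          ∑ d ∈ range (M + 1), (chi A d : ℝ) := by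
        rw [sum_range_Ioc, sum_range_Ioc, ← sum_Ioc_consecutive _ (Nat.zero_le M) hK]
        ring
      rw [e1]
      have e2 := chi_bound h ho (K + 1)
      have e3 := chi_bound h ho (M + 1)
      rw [abs_le] at e2 e3 ⊢
      constructor <;> linarith [e2.1, e2.2, e3.1, e3.2])
    (fun d _ => by positivity) (fun d hd => pw_anti (by linarith) d (by omega)) N hMN
  refine h1.trans ?_
  have hA : (3 : ℝ) ≤ A := by exact_mod_cast h
  have h2 : ((M + 1 : ℕ) : ℝ) ^ (-(1 + δ)) ≤ 1 / (M + 1) := by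
    have h3 : ((M + 1 : ℕ) : ℝ) ^ (-(1 + δ)) ≤ ((M + 1 : ℕ) : ℝ) ^ (-1 : ℝ) := by
      apply Real.rpow_le_rpow_of_exponent_le
      · push_cast
        have : (0 : ℝ) ≤ M := Nat.cast_nonneg M
        linarith
      · linarith
    rw [Real.rpow_neg_one] at h3
    refine h3.trans (le_of_eq ?_)
    push_cast
    rw [one_div]
  calc 2 * (4 * (A : ℝ) - 1) * ((M + 1 : ℕ) : ℝ) ^ (-(1 + δ))
      ≤ 8 * A * (1 / (M + 1)) := by
        apply mul_le_mul (by linarith) h2 (by positivity) (by positivity)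
    _ = 8 * A / (M + 1) := by ring

theorem exists_V {A : ℕ} (h : 3 ≤ A) (ho : Odd A) : ∃ V : ℝ → ℝ, ∀ δ : ℝ, 0 ≤ δ →
    Tendsto (fun N => T1 A N δ) atTop (𝓝 (V δ)) ∧ ∀ N : ℕ, |T1 A N δ - V δ| ≤ 8 * A / (N + 1) := by
  have hlim : ∀ δ : ℝ, ∃ L : ℝ, 0 ≤ δ → Tendsto (fun N => T1 A N δ) atTop (𝓝 L) := by
    intro δ
    by_cases hδ : 0 ≤ δ
    · have hc : CauchySeq (fun N => T1 A N δ) := by
        rw [Metric.cauchySeq_iff']
        intro ε hε
        obtain ⟨M, hM⟩ := exists_nat_gt (8 * A / ε)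
        refine ⟨M, fun n hn => ?_⟩
        rw [Real.dist_eq]
        refine lt_of_le_of_lt (T1_diff h ho hδ hn) ?_
        rw [div_lt_iff₀ (by positivity)]
        rw [div_lt_iff₀ hε] at hM
        linarith
      obtain ⟨L, hL⟩ := cauchySeq_tendsto_of_complete hc
      exact ⟨L, fun _ => hL⟩
    · exact ⟨0, fun h => absurd h hδ⟩
  choose V hV using hlim
  refine ⟨V, fun δ hδ => ⟨hV δ hδ, fun N => ?_⟩⟩
  rw [abs_sub_comm]
  have h1 : Tendsto (fun K => |T1 A K δ - T1 A N δ|) atTop (𝓝 |V δ - T1 A N δ|) :=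
    ((hV δ hδ).sub_const _).abs
  refine le_of_tendsto h1 ?_
  filter_upwards [eventually_ge_atTop N] with K hK
  exact T1_diff h ho hδ hK

theorem V_cont {A : ℕ} {V : ℝ → ℝ} (hV : ∀ δ : ℝ, 0 ≤ δ → ∀ N : ℕ, |T1 A N δ - V δ| ≤ 8 * A / (N + 1)) :
    Tendsto V (𝓝[>] 0) (𝓝 (V 0)) := by
  have hu : TendstoUniformlyOn (fun N δ => T1 A N δ) V atTop (Set.Ici (0 : ℝ)) := by
    rw [Metric.tendstoUniformlyOn_iff]
    intro ε hε
    obtain ⟨M, hM⟩ := exists_nat_gt (8 * A / ε)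
    filter_upwards [eventually_ge_atTop M] with N hN δ hδ
    rw [dist_comm, Real.dist_eq]
    refine lt_of_le_of_lt (hV δ hδ N) ?_
    have hMN : (M : ℝ) ≤ N := by exact_mod_cast hN
    rw [div_lt_iff₀ (by positivity)]
    rw [div_lt_iff₀ hε] at hM
    nlinarith
  have hc : ContinuousOn V (Set.Ici (0 : ℝ)) := by
    apply hu.continuousOn
    apply Filter.Eventually.frequently
    refine Filter.Eventually.of_forall fun N => ?_
    unfold T1
    apply continuousOn_finsetSum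
    intro n hn
    rw [mem_Ioc] at hn
    apply Continuous.continuousOn
    apply Continuous.mul continuous_const
    have hn0 : (n : ℝ) ≠ 0 := by
      have : n ≠ 0 := by omega
      exact_mod_cast this
    exact (Real.continuous_const_rpow hn0).comp (by fun_prop)
  have h1 := hc 0 (Set.mem_Ici.2 le_rfl)
  exact h1.mono_left (nhdsWithin_mono _ fun x hx => Set.mem_Ici.2 (le_of_lt hx))

/-- the partial sums of the logarithm of the Euler product -/
noncomputable def W1 (A N : ℕ) (δ : ℝ) : ℝ :=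
  ∑ p ∈ (Ioc 0 N).filter Nat.Prime, -Real.log (1 - (chi A p : ℝ) * (p : ℝ) ^ (-(1 + δ)))

theorem x_abs (A : ℕ) {p : ℕ} (hp : 2 ≤ p) {δ : ℝ} (hδ : 0 ≤ δ) :
    |(chi A p : ℝ) * (p : ℝ) ^ (-(1 + δ))| ≤ 1 / p := by
  rw [abs_mul, abs_of_nonneg (by positivity : 0 ≤ (p : ℝ) ^ (-(1 + δ)))]
  have h1 : (p : ℝ) ^ (-(1 + δ)) ≤ (p : ℝ) ^ (-1 : ℝ) := by
    apply Real.rpow_le_rpow_of_exponent_le
    · exact_mod_cast (by omega : 1 ≤ p)
    · linarith
  rw [Real.rpow_neg_one, ← one_div] at h1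
  calc |(chi A p : ℝ)| * (p : ℝ) ^ (-(1 + δ)) ≤ 1 * (1 / p) :=
        mul_le_mul (chi_abs A p) h1 (by positivity) zero_le_one
    _ = 1 / p := one_mul _

theorem x_half (A : ℕ) {p : ℕ} (hp : 2 ≤ p) {δ : ℝ} (hδ : 0 ≤ δ) :
    |(chi A p : ℝ) * (p : ℝ) ^ (-(1 + δ))| ≤ 1 / 2 := by
  refine (x_abs A hp hδ).trans ?_
  apply one_div_le_one_div_of_le (by norm_num)
  exact_mod_cast hp

theorem x_pos (A : ℕ) {p : ℕ} (hp : 2 ≤ p) {δ : ℝ} (hδ : 0 ≤ δ) :
    0 < 1 - (chi A p : ℝ) * (p : ℝ) ^ (-(1 + δ)) := by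
  have := (abs_le.1 (x_half A hp hδ)).2
  linarith

theorem log_bd {x : ℝ} (hx : |x| ≤ 1 / 2) : |-Real.log (1 - x) - x| ≤ 2 * x ^ 2 := by
  have h3 := Real.abs_log_sub_add_sum_range_le (show |x| < 1 by linarith) 1
  simp only [range_one, sum_singleton, zero_add, pow_one, Nat.cast_zero, div_one] at h3
  have h4 : |x| ^ (1 + 1) / (1 - |x|) ≤ 2 * x ^ 2 := by
    rw [div_le_iff₀ (by linarith)]
    have : |x| ^ (1 + 1) = x ^ 2 := by rw [show 1 + 1 = 2 from rfl, sq_abs]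
    rw [this]
    have h6 : 0 ≤ x ^ 2 := by positivity
    nlinarith [abs_nonneg x]
  have h5 : -Real.log (1 - x) - x = -(x + Real.log (1 - x)) := by ring
  rw [h5, abs_neg]
  exact h3.trans h4

theorem W1_cauchy {A : ℕ} (h : 3 ≤ A) (ε : ℝ) (hε : 0 < ε) : ∃ M0 : ℕ, 2 ≤ M0 ∧
    ∀ M N : ℕ, M0 ≤ M → M ≤ N → ∀ δ : ℝ, 0 ≤ δ → |W1 A N δ - W1 A M δ| ≤ ε := by
  have hns : ¬ IsSquare (1 - 4 * (A : ℤ)) := by
    rintro ⟨r, hr⟩
    have : 0 ≤ r * r := mul_self_nonneg r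
    omega
  obtain ⟨L, hL⟩ := Pool.Agent.W468.ConjF.SJ_cauchy _ hns 2
  have hc := hL.cauchySeq
  rw [Metric.cauchySeq_iff] at hc
  obtain ⟨M1, hM1⟩ := hc (ε / 2) (by linarith)
  obtain ⟨M2, hM2⟩ := exists_nat_gt (4 / ε)
  refine ⟨max 2 (max M1 M2), le_max_left _ _, fun M N hM hMN δ hδ => ?_⟩
  have hM2' : 2 ≤ M := le_trans (le_max_left _ _) hM
  have hMM1 : M1 ≤ M := le_trans (le_trans (le_max_left _ _) (le_max_right _ _)) hM
  have hMM2 : M2 ≤ M := le_trans (le_trans (le_max_right _ _) (le_max_right _ _)) hM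
  have hM0 : (0 : ℝ) < M := by exact_mod_cast (by omega : 0 < M)
  have h0 : W1 A N δ - W1 A M δ =
      ∑ p ∈ (Ioc M N).filter Nat.Prime, -Real.log (1 - (chi A p : ℝ) * (p : ℝ) ^ (-(1 + δ))) := by
    unfold W1
    rw [sum_filter, sum_filter, sum_filter, ← sum_Ioc_consecutive _ (Nat.zero_le M) hMN]
    ring
  have h1 : ∑ p ∈ (Ioc M N).filter Nat.Prime, -Real.log (1 - (chi A p : ℝ) * (p : ℝ) ^ (-(1 + δ))) =
      ∑ p ∈ (Ioc M N).filter Nat.Prime, (chi A p : ℝ) * (p : ℝ) ^ (-(1 + δ)) +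
      ∑ p ∈ (Ioc M N).filter Nat.Prime, (-Real.log (1 - (chi A p : ℝ) * (p : ℝ) ^ (-(1 + δ))) -
        (chi A p : ℝ) * (p : ℝ) ^ (-(1 + δ))) := by
    rw [← sum_add_distrib]
    exact sum_congr rfl fun p _ => by ring
  rw [h0, h1]
  -- first sum
  have h2 : |∑ p ∈ (Ioc M N).filter Nat.Prime, (chi A p : ℝ) * (p : ℝ) ^ (-(1 + δ))| ≤ ε / 2 := by
    have e1 : ∑ p ∈ (Ioc M N).filter Nat.Prime, (chi A p : ℝ) * (p : ℝ) ^ (-(1 + δ)) =
        ∑ d ∈ Ioc M N, (if d.Prime then (chi A d : ℝ) / d else 0) * (d : ℝ) ^ (-δ) := by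
      rw [sum_filter]
      refine sum_congr rfl fun d hd => ?_
      rw [mem_Ioc] at hd
      have hd0 : (0 : ℝ) < d := by exact_mod_cast (by omega : 0 < d)
      split_ifs
      · rw [neg_add, Real.rpow_add hd0, Real.rpow_neg_one]
        ring
      · rw [zero_mul]
    rw [e1]
    have h3 := abel_bd (fun d => if d.Prime then (chi A d : ℝ) / d else 0) (fun d => (d : ℝ) ^ (-δ)) M
      (ε / 2) (fun K hK => by
        have e2 : ∑ d ∈ Ioc M K, (if d.Prime then (chi A d : ℝ) / d else 0) =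
            Pool.Agent.W468.ConjF.SJ (1 - 4 * (A : ℤ)) 2 K -
              Pool.Agent.W468.ConjF.SJ (1 - 4 * (A : ℤ)) 2 M := by
          unfold Pool.Agent.W468.ConjF.SJ
          rw [sum_filter, sum_filter, ← sum_Ioc_consecutive _ hM2' hK, add_sub_cancel_left]
          refine sum_congr rfl fun d hd => ?_
          rw [mem_Ioc] at hd
          by_cases hp : d.Prime
          · rw [if_pos hp, if_pos hp]
            have hodd : Odd d := hp.odd_of_ne_two (by omega)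
            rw [chi_jac h hodd]
          · rw [if_neg hp, if_neg hp]
        rw [e2]
        have e3 := hM1 K (by omega) M hMM1
        rw [Real.dist_eq] at e3
        exact e3.le)
      (fun d _ => by positivity) (fun d hd => pw_anti hδ d (by omega)) N hMN
    refine h3.trans ?_
    have h4 : ((M + 1 : ℕ) : ℝ) ^ (-δ) ≤ 1 := by
      apply Real.rpow_le_one_of_one_le_of_nonpos
      · push_cast; linarith
      · linarith
    nlinarith
  have h5 : |∑ p ∈ (Ioc M N).filter Nat.Prime, (-Real.log (1 - (chi A p : ℝ) * (p : ℝ) ^ (-(1 + δ))) -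
        (chi A p : ℝ) * (p : ℝ) ^ (-(1 + δ)))| ≤ ε / 2 := by
    calc |∑ p ∈ (Ioc M N).filter Nat.Prime, (-Real.log (1 - (chi A p : ℝ) * (p : ℝ) ^ (-(1 + δ))) -
        (chi A p : ℝ) * (p : ℝ) ^ (-(1 + δ)))|
        ≤ ∑ p ∈ (Ioc M N).filter Nat.Prime, |-Real.log (1 - (chi A p : ℝ) * (p : ℝ) ^ (-(1 + δ))) -
        (chi A p : ℝ) * (p : ℝ) ^ (-(1 + δ))| := abs_sum_le_sum_abs _ _
      _ ≤ ∑ p ∈ (Ioc M N).filter Nat.Prime, 2 * (1 / ((p : ℝ) * (p - 1))) := by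
          refine sum_le_sum fun p hp => ?_
          rw [mem_filter, mem_Ioc] at hp
          have hp3 : (3 : ℝ) ≤ p := by exact_mod_cast (by omega : 3 ≤ p)
          refine (log_bd (x_half A (by omega) hδ)).trans ?_
          have e1 : ((chi A p : ℝ) * (p : ℝ) ^ (-(1 + δ))) ^ 2 ≤ (1 / (p : ℝ)) ^ 2 :=
            sq_le_sq' (by
              have := (abs_le.1 (x_abs A (by omega : 2 ≤ p) hδ)).1
              linarith) ((abs_le.1 (x_abs A (by omega : 2 ≤ p) hδ)).2)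
          have e2 : (1 / (p : ℝ)) ^ 2 ≤ 1 / ((p : ℝ) * (p - 1)) := by
            rw [div_pow, one_pow]
            apply one_div_le_one_div_of_le
            · apply mul_pos <;> linarith
            · nlinarith
          linarith
      _ ≤ ∑ n ∈ Ioc M N, 2 * (1 / ((n : ℝ) * (n - 1))) := by
          apply sum_le_sum_of_subset_of_nonneg (filter_subset _ _)
          intro p hp _
          rw [mem_Ioc] at hp
          have hp3 : (3 : ℝ) ≤ p := by exact_mod_cast (by omega : 3 ≤ p)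
          have : 0 < (p : ℝ) * (p - 1) := by apply mul_pos <;> linarith
          positivity
      _ ≤ 2 * (1 / (M : ℝ)) := by
          rw [← mul_sum]
          have e3 := Pool.Agent.W468.ConjF.sum_inv_mul M N (by omega) hMN
          have e4 : (0 : ℝ) ≤ 1 / N := by positivity
          linarith
      _ ≤ ε / 2 := by
          rw [div_lt_iff₀ hε] at hM2
          have e5 : (M2 : ℝ) ≤ M := by exact_mod_cast hMM2
          have e6 : 4 ≤ M * ε := by nlinarith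
          rw [mul_one_div, div_le_iff₀ hM0]
          linarith
  refine (abs_add_le _ _).trans ?_
  linarith

end Pool.Agent.P8H96.CF
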